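import Pool.Agent.W823.QT.Stm

/-!
# MP_26aa9e_pr (project QT): exponential moment of the interaction with a fixed path
-/

set_option autoImplicit false

namespace Pool.Agent.W589.QT

open MeasureTheory ProbabilityTheory Filter Topology Pool.Agent.W823.QT
open scoped ENNReal NNReal

theorem Ex_zero : Ex 0 = 1 := by
  unfold Ex
  rw [EReal.coe_ennreal_zero, EReal.exp_zero]

theorem Ex_add (s t : ℝ≥0∞) : Ex (s + t) = Ex s * Ex t := by
  unfold Ex
  rw [EReal.coe_ennreal_add]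
  exact EReal.exp_add _ _

theorem Ex_sum {ι : Type*} (s : Finset ι) (f : ι → ℝ≥0∞) :
    Ex (∑ i ∈ s, f i) = ∏ i ∈ s, Ex (f i) := by
  classical
  induction s using Finset.induction_on with
  | empty => simp [Ex_zero]
  | insert a s ha ih => rw [Finset.sum_insert ha, Finset.prod_insert ha, Ex_add, ih]

theorem Ex_mono {s t : ℝ≥0∞} (h : s ≤ t) : Ex s ≤ Ex t := by
  unfold Ex
  exact EReal.exp_monotone (EReal.coe_ennreal_le_coe_ennreal_iff.2 h)

theorem one_le_Ex (t : ℝ≥0∞) : 1 ≤ Ex t := by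
  rw [← Ex_zero]
  exact Ex_mono zero_le

theorem vf_shift {d : ℕ} (p : ℕ → (Fin d → ℤ) → ℝ≥0∞) (c : ℝ≥0∞) (J : Finset ℤ)
    (z : ℤ → Fin d → ℤ) (i0 : ℕ) (x : Fin d → ℤ) :
    (fun (i : ℕ) (y : Fin d → ℤ) => vf p c J z (i0 + i) (x + y)) =
      vf p c (J.image fun j => j - (i0 : ℤ)) (fun j => z (j + i0) - x) := by
  funext i y
  unfold vf
  rw [Finset.sum_image (fun a _ b _ h => by simpa using h)]
  congr 3
  refine Finset.sum_congr rfl fun j _ => ?_
  have e1 : (((i0 + i : ℕ) : ℤ) - j).natAbs = ((i : ℤ) - (j - (i0 : ℤ))).natAbs := by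
    omega
  have e2 : x + y - z j = y - (z (j - (i0 : ℤ) + (i0 : ℤ)) - x) := by
    rw [sub_add_cancel, sub_sub_eq_add_sub, add_comm x y]
  rw [e1, e2]

theorem Icc_one_eq (n : ℕ) (f : ℕ → ℝ≥0∞) :
    ∏ i ∈ Finset.range (n + 1), f i = f 0 * ∏ i ∈ Finset.Icc 1 n, f i := by
  have h : Finset.Icc 1 n = Finset.Ico 1 (n + 1) := by ext k; simp only [Finset.mem_Icc, Finset.mem_Ico]; omega
  rw [h, Finset.range_eq_Ico, Finset.prod_eq_prod_Ico_succ_bot (Nat.succ_pos n)]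

theorem main (h1 : EPS_T) (h2 : KH_T) (h3 : TH_T) (_h4 : MEAS_T) : M3_T := by
  intro d q _ p g c η hK n z
  obtain ⟨hS, hle⟩ := h1 d q p g c η hK
  have key := h2 d q η (fun k => Ex (c * g k) - 1) hK.loc hle hS
    (fun v => ∃ (J : Finset ℤ) (z : ℤ → Fin d → ℤ), v = vf p c J z) 1 ENNReal.one_ne_top
    (by rintro v ⟨J, z, rfl⟩ i x; exact (h3 d q p g c η hK J z).1 i x)
    (by rintro v ⟨J, z, rfl⟩ i0 x; exact ⟨_, _, vf_shift p c J z i0 x⟩)
    (by rintro v ⟨J, z, rfl⟩ m; exact (h3 d q p g c η hK J z).2 m)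
  set J : Finset ℤ := (Finset.range (n + 1)).image (fun j : ℕ => (j : ℤ)) with hJ
  set z' : ℤ → Fin d → ℤ := fun j => z j.toNat with hz'
  have hkey := key (vf p c J z') ⟨J, z', rfl⟩ n
  have hvf : ∀ (i : ℕ) (x : Fin d → ℤ),
      Ex (c * ∑ j ∈ Finset.range (n + 1), p ((i - j) + (j - i)) (x - z j)) =
        1 + vf p c J z' i x := by
    intro i x
    unfold vf
    rw [add_tsub_cancel_of_le (one_le_Ex _), hJ,
      Finset.sum_image (fun a _ b _ h => by simpa using h)]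
    congr 2
    refine Finset.sum_congr rfl fun j _ => ?_
    have e1 : ((i : ℤ) - (j : ℤ)).natAbs = (i - j) + (j - i) := by omega
    rw [e1, hz']
    simp
  have hpt : ∀ a : ℕ → Fin d → ℤ,
      V η n a * Ex (c * ∑ i ∈ Finset.range (n + 1), ∑ j ∈ Finset.range (n + 1),
        p ((i - j) + (j - i)) (pos a i - z j)) ≤
      2 * (V η n a * ∏ i ∈ Finset.Icc 1 n, (1 + vf p c J z' i (pos a i))) := by
    intro a
    rw [Finset.mul_sum, Ex_sum, Finset.prod_congr rfl (fun i _ => hvf i (pos a i)), Icc_one_eq]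
    have h0 : 1 + vf p c J z' 0 (pos a 0) ≤ 2 := by
      calc 1 + vf p c J z' 0 (pos a 0) ≤ 1 + 1 := by
            gcongr; exact (h3 d q p g c η hK J z').1 0 (pos a 0)
        _ = 2 := one_add_one_eq_two
    calc V η n a * ((1 + vf p c J z' 0 (pos a 0)) *
          ∏ i ∈ Finset.Icc 1 n, (1 + vf p c J z' i (pos a i)))
        ≤ V η n a * (2 * ∏ i ∈ Finset.Icc 1 n, (1 + vf p c J z' i (pos a i))) := by gcongr
      _ = 2 * (V η n a * ∏ i ∈ Finset.Icc 1 n, (1 + vf p c J z' i (pos a i))) := by ring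
  calc ∫⁻ a, V η n a * Ex (c * ∑ i ∈ Finset.range (n + 1), ∑ j ∈ Finset.range (n + 1),
        p ((i - j) + (j - i)) (pos a i - z j)) ∂(iid q)
      ≤ ∫⁻ a, 2 * (V η n a * ∏ i ∈ Finset.Icc 1 n, (1 + vf p c J z' i (pos a i))) ∂(iid q) :=
        lintegral_mono hpt
    _ = 2 * ∫⁻ a, V η n a * ∏ i ∈ Finset.Icc 1 n, (1 + vf p c J z' i (pos a i)) ∂(iid q) :=
        lintegral_const_mul' _ _ ENNReal.ofNat_ne_top
    _ ≤ 2 * (2 * A q η n) := by gcongr
    _ = 4 * A q η n := by rw [← mul_assoc]; norm_num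

end Pool.Agent.W589.QT
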